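import Pool.Agent.J6H3.TS.Orb
import Pool.Agent.J6H46.TS.Rot
import Pool.Agent.J6H68.TS.Lab
import Pool.Agent.J6H78.TS.Code
import Pool.Agent.J6H85.TS.Lin
import Pool.Agent.J6H92.TS.Sub
import Pool.Agent.J6H24.TS.Fix
import Pool.Agent.J6H75.TS.Ex

/-! # The modules of project TS -/

namespace Pool.Agent.J6H84.TS

theorem rot : S_Rot := Pool.Agent.J6H46.TS.Rot.main

theorem lab' : S_Lab := Pool.Agent.J6H68.TS.Lab.main

theorem code : S_Code := Pool.Agent.J6H78.TS.Code.main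

theorem orb : S_Orb := Pool.Agent.J6H3.TS.Orb.main

theorem sub : S_Sub := Pool.Agent.J6H92.TS.Sub.main

theorem lin : S_Lin := Pool.Agent.J6H85.TS.Lin.main

theorem fix : S_Fix := Pool.Agent.J6H24.TS.Fix.main

theorem ex : S_Ex := Pool.Agent.J6H75.TS.Ex.main

end Pool.Agent.J6H84.TS
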