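import Pool.Agent.J6H84.TS.All
import Pool.Agent.Y347.VL.Upper

/-!
# Project TS: the final step
-/

set_option autoImplicit false

namespace Pool.Agent.J6H84.TS

open Finset Pool.Agent.H430R2.PermCubes Pool.Agent.J6H84.LM

theorem isPGroup {p m j : ℕ} [Fact p.Prime] {P : Subgroup (Equiv.Perm (Fin m → Fin p))}
    (h : Nat.card P = p ^ j) : IsPGroup p P := IsPGroup.of_card h

/-- a group of order `p ^ (m - 1)` fixing every cube: at most `p + 1` cubes -/
theorem card_le {p m k : ℕ} [Fact p.Prime] (hp2 : p ≠ 2) (hm : 3 ≤ m) (hmp : m ≤ p) (hmk : m ≤ k)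
    {C : Fin k → (Fin m → Fin p) → Fin p} (hC : IsArray m p k C)
    (P : Subgroup (Equiv.Perm (Fin m → Fin p))) (hP : Nat.card P = p ^ (m - 1))
    (hA : ∀ σ ∈ P, Aut C 1 σ) : k ≤ p + 1 := by
  obtain ⟨u, χ, h⟩ := lab' rot p m k C (by omega) hmk hC P (isPGroup hP) hA
  obtain ⟨a, ha⟩ := code p m k C (by omega) hmk hC P hP u χ h
  have hpp : p.Prime := Fact.out
  have hp3 : 3 ≤ p := by have := hpp.two_le; omega
  have h1 : (Fintype.card (ZMod p)) = p := ZMod.card p
  have h2 := Pool.Agent.Y347.VL.upper_odd (F := ZMod p) (p := p) hp3 hm (by rw [h1]; exact hmp)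
    (by rw [h1]; exact Pool.Agent.Y347.VL.inRange_prime hp3) a ha
  rwa [h1] at h2

/-- a group of order `p ^ m` permuting the cubes: at most `p + 1` cubes -/
theorem card_le_full {p m k : ℕ} [Fact p.Prime] (hp2 : p ≠ 2) (hm : 3 ≤ m) (hmp : m ≤ p)
    {C : Fin k → (Fin m → Fin p) → Fin p} (hC : IsArray m p k C)
    (Q : Subgroup (Equiv.Perm (Fin m → Fin p))) (hQ : Nat.card Q = p ^ m)
    (hA : ∀ σ ∈ Q, ∃ π, Aut C π σ) : k ≤ p + 1 := by
  rcases Nat.lt_or_ge k m with h | hmk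
  · omega
  have hpp : p.Prime := Fact.out
  have hp3 : 3 ≤ p := by have := hpp.two_le; omega
  have hk := hC.le_general (by omega) (by omega)
  obtain ⟨P, hP, hP'⟩ := fix p m k C (by omega) hmk (by omega) hC Q hQ hA
  exact card_le hp2 hm hmp hmk hC P hP hP'

end Pool.Agent.J6H84.TS
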