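import Pool.Agent.J6H84.LM.Stm

/-!
# Project TS (hard problem MP_c7a479_co): transitive variational sets of prime order

Aim: for `p` an odd prime and `3 ≤ m < p` the largest size of a variational set of `m`-dimensional cubes
of order `p` with an automorphism group (cell permutations that permute the cubes up to the names of the
symbols) which is transitive on the cells is `p + 1`.  If `k ≥ p + 2`, the group fixing every cube has
order not divisible by `p ^ (m - 1)`, the full group order not divisible by `p ^ m`.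

Modules: `S_Rot`, `S_Lab`, `S_Code`, `S_Fix`, `S_Orb`, `S_Ex`, `S_Sub`, `S_Lin`; complete proofs below.
-/

set_option autoImplicit false

namespace Pool.Agent.J6H84.TS

open Finset Pool.Agent.H430R2.PermCubes Pool.Agent.J6H84.LM

/-- `σ` is an automorphism of the family `C` which maps the cube `i` to the cube `π i`, up to the names
of the symbols. -/
def Aut {m n k : ℕ} (C : Fin k → (Fin m → Fin n) → Fin n) (π : Equiv.Perm (Fin k))
    (σ : Equiv.Perm (Fin m → Fin n)) : Prop :=
  ∀ i, ∃ τ : Equiv.Perm (Fin n), ∀ x, C (π i) (σ x) = τ (C i x)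

/-- **Module ROT.**  A finite `p`-group acting on `p` points acts by rotations.

Proof.  The range `R` of `ρ` is a `p`-group (`IsPGroup.map` / `of_surjective`) and `card R` divides `p!`
(`Subgroup.card_subgroup_dvd_card`, `Fintype.card_perm`), `p ^ 2` does not divide `p!`
(`p! = p * (p-1)!`, `p ∤ (p-1)!`), so `card R` is `1` or `p`.  If it is `1` take `χ = 0` and any `u`.
Otherwise `R` is cyclic of prime order, generated by `g` of order `p` (`orderOf g = p`, `zpowers g = R`).
`g` has no fixed point and the cell `s0` has the orbit `{g ^ a s0 | a < p}` of `p` different points: if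
`g ^ a s0 = g ^ b s0` with `a < b < p` then `g ^ (b - a)`, a generator of `R`, fixes `s0`, so `g` fixes
`s0`, so (as an element of order `p` of the symmetric group on the remaining `p - 1` points, `p ∤ (p-1)!`)
`g = 1`; or use `Equiv.Perm.isCycle_of_prime_order'` (`card < 2 * orderOf`) with
`card support = p`.  So `a ↦ g ^ a s0` is a bijection from `ZMod p` (or `Fin p`) to `Fin p`; let `u` be its
inverse.  `ρ σ = g ^ b` for some `b`, put `χ σ = b`: `ρ σ (g ^ a s0) = g ^ (a + b) s0`. -/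
def S_Rot : Prop := ∀ (p : ℕ) [Fact p.Prime] (P : Type) [Group P] [Finite P], IsPGroup p P →
  ∀ ρ : P →* Equiv.Perm (Fin p), ∃ (u : Fin p ≃ ZMod p) (χ : P → ZMod p),
    ∀ σ s, u (ρ σ s) = u s + χ σ

/-- **Module LAB.**  Proof.  Fix `i`.  `C i` is surjective (`IsArray`, `1 ≤ m ≤ k`: `exists_point` for a set
of `m` indices containing `i`).  For `σ ∈ P` choose `τ σ` with `C i (σ x) = τ σ (C i x)` for all `x`; it is
unique since `C i` is surjective, so `ρ = τ` is a homomorphism `P →* Perm (Fin p)`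
(`τ (σ σ') (C i x) = C i (σ (σ' x)) = τ σ (τ σ' (C i x))`).  Apply `S_Rot`. -/
def S_Lab : Prop := S_Rot → ∀ (p : ℕ) [Fact p.Prime] (m k : ℕ)
  (C : Fin k → (Fin m → Fin p) → Fin p), 1 ≤ m → m ≤ k → IsArray m p k C →
  ∀ P : Subgroup (Equiv.Perm (Fin m → Fin p)), IsPGroup p P → (∀ σ ∈ P, Aut C 1 σ) →
  ∃ (u : Fin k → (Fin p ≃ ZMod p)) (χ : Fin k → P → ZMod p),
    ∀ i (σ : P) x, u i (C i (σ.1 x)) = u i (C i x) + χ i σ

/-- **Module CODE.**

Proof.  Let `Χ σ = (fun i => χ i σ) : Fin k → ZMod p`.  `Χ (σ σ') = Χ σ + Χ σ'` (apply the formula to `σ' x` and `x`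
for some cell `x`), so `L = {Χ σ}` is an additive subgroup, hence a subspace of `Fin k → ZMod p`
(`AddSubgroup.toZModSubmodule`).  `Χ` is injective: if `Χ σ = Χ σ'` then `C i (σ x) = C i (σ' x)` for all `i`, `x`,
so `σ x = σ' x` (`IsArray.eq_of_agree`, `m ≤ k`).  So `|L| = p ^ (m-1)`.
Let `x0` be a cell and `x1` a cell which is not of the form `σ x0`, `σ ∈ P` (there are at most `p ^ (m-1) < p ^ m`
cells `σ x0`).  `δ i = u i (C i x1) - u i (C i x0)`, `L' = {Χ σ + c • δ}`, a subspace.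
Claim: if `v ∈ L'` vanishes at `m` different indices then `v = 0`.  Let `v = Χ σ + c • δ`.  If `c = 0` then
`C i (σ x) = C i x` at these indices for all `x`, so `σ x = x`, `σ = 1`, `v = 0`.  If `c ≠ 0` then
`c⁻¹ • v = Χ σ' + δ` for some `σ' ∈ P` (`L` is a subspace), so `u i (C i (σ' x1)) = u i (C i x0)` at these indices,
so `σ' x1 = x0`, `x1 = σ'⁻¹ x0`, contradiction.
In particular `δ ∉ L` (`k ≥ m`), so `|L'| > p ^ (m-1)`, so `finrank L' ≥ m` (`card = p ^ finrank`).  Let `b 0, …, b (m-1)`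
be independent vectors of `L'`, `a i l = b l i`.  If `det (of fun j => a (f j)) = 0` there is `w ≠ 0` with
`∑ l, a (f j) l * w l = 0` for all `j` (`Matrix.exists_mulVec_eq_zero_iff`), so `∑ w l • b l` vanishes at the `m`
indices `f j`, so it is `0`, so `w = 0`. -/
def S_Code : Prop := ∀ (p : ℕ) [Fact p.Prime] (m k : ℕ)
  (C : Fin k → (Fin m → Fin p) → Fin p), 1 ≤ m → m ≤ k → IsArray m p k C →
  ∀ (P : Subgroup (Equiv.Perm (Fin m → Fin p))), Nat.card P = p ^ (m - 1) →
  ∀ (u : Fin k → (Fin p ≃ ZMod p)) (χ : Fin k → P → ZMod p),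
    (∀ i (σ : P) x, u i (C i (σ.1 x)) = u i (C i x) + χ i σ) →
    ∃ a : Fin k → Fin m → ZMod p, ∀ f : Fin m → Fin k, Function.Injective f →
      Matrix.det (Matrix.of fun i => a (f i)) ≠ 0

/-- **Module FIX.**

Proof.  For `σ ∈ Q` the permutation `π` is unique: let `Aut C π σ`, `Aut C π' σ` and `j = π i ≠ j' = π' i`.  Then
`C j (σ x) = C j (σ y) ↔ C i x = C i y ↔ C j' (σ x) = C j' (σ y)`.  But by `IsArray` (a set of `m ≥ 2` indices
containing `j`, `j'`, `exists_point`) there are cells with equal values of `C j` and different values of `C j'`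
(`p ≥ 2`), contradiction.  So `σ ↦ π` is a homomorphism `f : Q →* Perm (Fin k)`.  `card (range f)` divides
`k!` and is a power of `p`; `p ^ 2 ∤ k!` as `k < 2 * p` (`Nat.Prime.dvd_factorial`, or
`Nat.Prime.multiplicity_factorial`/`padicValNat_factorial`: `k / p ≤ 1`, `k < p ^ 2`), so it is `≤ p`.  So the
kernel `N` has order `≥ p ^ (m-1)` and is a power of `p`, so `p ^ (m-1) ∣ card N`, and `N` has a subgroup of order
`p ^ (m-1)` (`Sylow.exists_subgroup_card_pow_prime`); let `P` be its image in `Perm (Fin m → Fin p)`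
(`Subgroup.map`, injective maps preserve the order). -/
def S_Fix : Prop := ∀ (p : ℕ) [Fact p.Prime] (m k : ℕ)
  (C : Fin k → (Fin m → Fin p) → Fin p), 2 ≤ m → m ≤ k → k < 2 * p → IsArray m p k C →
  ∀ Q : Subgroup (Equiv.Perm (Fin m → Fin p)), Nat.card Q = p ^ m →
    (∀ σ ∈ Q, ∃ π, Aut C π σ) →
    ∃ P : Subgroup (Equiv.Perm (Fin m → Fin p)), Nat.card P = p ^ (m - 1) ∧ ∀ σ ∈ P, Aut C 1 σ

/-- **Module ORB.**

Proof.  `Γ = {σ | ∃ π, Aut C π σ}` is a subgroup of `Perm (Fin m → Fin p)` (for the inverse: if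
`C (π i) (σ x) = τ i (C i x)` then `C (π⁻¹ j) (σ⁻¹ y) = (τ (π⁻¹ j))⁻¹ (C j y)`).  It acts transitively on the `p ^ m`
cells, so `p ^ m` divides its order (orbit-stabilizer; e.g. `MulAction.IsPretransitive`,
`MulAction.card_orbit_mul_card_stabilizer_eq_card_group`, or `MulAction.card_dvd...`).  By
`Sylow.exists_subgroup_card_pow_prime` it has a subgroup of order `p ^ m`; take its image (`Subgroup.map Γ.subtype`). -/
def S_Orb : Prop := ∀ (p : ℕ) [Fact p.Prime] (m k : ℕ)
  (C : Fin k → (Fin m → Fin p) → Fin p),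
  (∀ x y, ∃ π σ, Aut C π σ ∧ σ x = y) →
    ∃ Q : Subgroup (Equiv.Perm (Fin m → Fin p)), Nat.card Q = p ^ m ∧ ∀ σ ∈ Q, ∃ π, Aut C π σ

/-- **Module EX** (import `Pool.Agent.Y347.VL.Value`, a start file).

Proof.  By `Pool.Agent.Y347.VL.exists_value` (`F = ZMod p`, `q = p`) and `mem_sizes_iff`/`unitSet_iff_linOver` (see
the use in the start file `Results/MP_c7a479_co/LinearSetsOverRings.lean`, or its `result` for `R = ZMod p`:
`value m q ∈ Sizes R m (Nat.card R)`; or `Pool.Agent.Y347.VL.ZM.value_prime`) there is a variational set `C` of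
`value m p = p + 1` cubes with `IsLinear (ZMod p) m p (p + 1) C`: `σ j (C j x) = ∑ i, a j i * τ i (x i)`.  For
`t : Fin m → ZMod p` let `s t x = fun i => (τ i)⁻¹ (τ i (x i) + t i)`, a permutation of the cells;
`σ j (C j (s t x)) = σ j (C j x) + ∑ i, a j i * t i`, so `Aut C 1 (s t)`; and `s t x = y` for
`t i = τ i (y i) - τ i (x i)`. -/
def S_Ex : Prop := ∀ (p : ℕ) [Fact p.Prime] (m : ℕ), p ≠ 2 → 3 ≤ m → m < p →
  ∃ C : Fin (p + 1) → (Fin m → Fin p) → Fin p, IsVariationalSet m p (p + 1) C ∧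
    ∀ x y, ∃ σ, Aut C 1 σ ∧ σ x = y

/-- **Module SUB.**  Proof.  `Sylow.exists_subgroup_card_pow_prime` for the group `H`, and `Subgroup.map H.subtype`. -/
def S_Sub : Prop := ∀ (p j : ℕ) [Fact p.Prime] (G : Type) [Group G] [Finite G] (H : Subgroup G),
  p ^ j ∣ Nat.card H → ∃ K : Subgroup G, K ≤ H ∧ Nat.card K = p ^ j

/-- **Module LIN.**

Proof.  `Χ`, `L` as in `S_Code`; `Χ` is injective and additive, so `|L| = p ^ m` and `finrank L = m`; let
`λ : L ≃ₗ (Fin m → ZMod p)`.  `P` acts freely: if `σ x = x` then `χ i σ = 0` for all `i`, so `Χ σ = 0`, `σ = 1`.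
So for a cell `x0` the map `σ ↦ σ x0` is injective, so bijective (`|P| = p ^ m`), and `x ↦ Χ σ` for `x = σ x0` is a
bijection `ψ` from the cells to `L` with `u i (C i x) = u i (C i x0) + (ψ x) i`.  Let `φ = ψ.trans λ`.  The
value `(ψ x) i = (λ⁻¹ (φ x)) i` is a linear form in `φ x` (coefficients: its values at `Pi.single l 1`), and it
determines `C i x`. -/
def S_Lin : Prop := ∀ (p : ℕ) [Fact p.Prime] (m k : ℕ)
  (C : Fin k → (Fin m → Fin p) → Fin p), m ≤ k → IsArray m p k C →
  ∀ (P : Subgroup (Equiv.Perm (Fin m → Fin p))), Nat.card P = p ^ m →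
  ∀ (u : Fin k → (Fin p ≃ ZMod p)) (χ : Fin k → P → ZMod p),
    (∀ i (σ : P) x, u i (C i (σ.1 x)) = u i (C i x) + χ i σ) →
    ∃ φ : (Fin m → Fin p) ≃ (Fin m → ZMod p), ∀ i, LinIn φ (C i)

end Pool.Agent.J6H84.TS
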